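import Mathlib
import Pool.Agent.Z3h92.DioOr
import Pool.Agent.T2h20.GB.Main

/-!
# Linear equations in primes and the numbers `π + e`, `π - e`

At every scale `N`, for `x = π + e` or for `x = π - e`, the multiples `x p_i` of the prime solutions of
linear equations `a₁ p₁ + ⋯ + a_j p_j = n` are equidistributed modulo one with a power saving; so
Goldbach's problem (for almost all even numbers) and Vinogradov's three primes theorem (for all odd
numbers `N ^ (1 - δ) ≤ n ≤ N`) can be solved with primes `p` for which `x p` lies in any prescribed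
arcs of length `N ^ (-δ)`.

More generally all the numbers `(u t + P(θ)) / v`, `θ = e` or `θ = π`, of bounded degree and of height
up to a power of `N` (for instance `π + r e` with `r` rational), except those of one class, have these
properties.
-/

set_option autoImplicit false

open Polynomial

namespace Pool.Agent.Results.MP_363d4d_nt.GoldbachAllButOneClass

open Pool.Agent.Z3h92 Pool.Agent.T2h20.GB

/-- Let `θ` be `e` or `π`, let `m` be a degree, `k` a number of variables and `U` an exponent. There are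
`δ > 0` and `N₀` such that for all `N ≥ N₀` and *all* real numbers `t` (for instance `t = π` if
`θ = e`): if `x = (u t + P(θ)) / v` and `x' = (u' t + P'(θ)) / v'`, where the integers `u, v, u', v'`
and the coefficients of the integer polynomials `P, P'` of degree `≤ m` are at most `N ^ δ` in absolute
value and `u' P - u P'` is not constant, then `x` or `x'` is generic, at the scale `N`, for the linear
equations between primes in the sense of `Additive`. (With `t = π`, `θ = e`, `u = v = u' = v' = 1`,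
`P = X`, `P' = -X`, the numbers are `π + e` and `π - e`.) -/
theorem result (θ : ℝ) (hθ : θ = Real.exp 1 ∨ θ = Real.pi) (m k U : ℕ) :
    ∃ δ : ℝ, 0 < δ ∧ ∃ N₀ : ℕ, ∀ N : ℕ, N₀ ≤ N →
      ∀ (t : ℝ) (u v u' v' : ℤ) (P P' : ℤ[X]), v ≠ 0 → v' ≠ 0 →
        |(u : ℝ)| ≤ (N : ℝ) ^ δ → |(v : ℝ)| ≤ (N : ℝ) ^ δ →
        |(u' : ℝ)| ≤ (N : ℝ) ^ δ → |(v' : ℝ)| ≤ (N : ℝ) ^ δ →
        P.natDegree ≤ m → P'.natDegree ≤ m →
        (∀ i, |(P.coeff i : ℝ)| ≤ (N : ℝ) ^ δ) → (∀ i, |(P'.coeff i : ℝ)| ≤ (N : ℝ) ^ δ) →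
        (C u' * P - C u * P').natDegree ≠ 0 →
        Additive δ k U N ((u * t + aeval θ P) / v) ∨
          Additive δ k U N ((u' * t + aeval θ P') / v') := by
  have hM : Pool.Agent.TH456.TM.MeasT (θ : ℂ) := by
    rcases hθ with rfl | rfl
    · exact Pool.Agent.TH456.TM.measT_e
    · exact Pool.Agent.TH456.TM.measT_pi
  obtain ⟨η, hη, hη1, N₁, h1⟩ := dio_or hM m
  obtain ⟨δ, hδ, hδη, N₂, h2⟩ := additive_of_dio η hη hη1 k U
  refine ⟨δ, hδ, N₁ + N₂ + 1, ?_⟩
  intro N hN t u v u' v' P P' hv hv' hu hvE hu' hvE' hP hP' hPE hPE' hdeg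
  have hN1 : (1 : ℝ) ≤ N := by exact_mod_cast (by omega : 1 ≤ N)
  have hle : (N : ℝ) ^ δ ≤ (N : ℝ) ^ η := Real.rpow_le_rpow_of_exponent_le hN1 hδη
  rcases h1 N (by omega) t u v u' v' P P' hv hv' (hu.trans hle) (hvE.trans hle) (hu'.trans hle)
    (hvE'.trans hle) hP hP' (fun i => (hPE i).trans hle) (fun i => (hPE' i).trans hle) hdeg with h | h
  · exact Or.inl (h2 N _ (by omega) h)
  · exact Or.inr (h2 N _ (by omega) h)

end Pool.Agent.Results.MP_363d4d_nt.GoldbachAllButOneClass
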