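import Pool.Agent.Z3h92.Crit
import Pool.Agent.Z3h92.Sharp

/-!
# The near relations between `e` (or `π`) and an arbitrary number

`π + e` is rational or badly behaved only through polynomials `F` with integer coefficients for
which `F(e, π)` is small. Let `θ ∈ {e, π}` and let `t` be any complex number (`t = π` or `t = e`
for the problem). At every scale `H` all the near relations `F(θ, t) ≈ 0` of height at most `H` are
multiples of one irreducible polynomial, and this polynomial does not change as long as near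
relations exist; near relations at all large scales force an exact relation. For the relations that
are linear in `1, e, …, e ^ m, t_1, …, t_r` the threshold is determined: above the exponent
`(r + 1) m + r` the near relations of one scale span a space of dimension at most `r`, uniformly in
`t_1, …, t_r`, and this is false with any smaller exponent.
-/

set_option autoImplicit false

namespace Pool.Agent.Results.MP_363d4d_nt.OneRelationAtEachScale

open Polynomial Pool.Agent.Z3h92.Rel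

theorem vl_eq (x t : ℂ) (F : ℤ[X][X]) : Pool.Agent.TH456.TM.vl x t F = aevalAeval x t F := by
  unfold Pool.Agent.TH456.TM.vl
  induction F using Polynomial.induction_on' with
  | add p q hp hq => rw [map_add, Polynomial.map_add, eval_add, hp, hq]
  | monomial n a =>
    rw [← C_mul_X_pow_eq_monomial, map_mul, map_pow, aevalAeval_Y, aevalAeval_C,
      Polynomial.map_mul, Polynomial.map_pow, map_C, map_X, eval_mul, eval_pow, eval_C, eval_X]
    rfl

theorem measT (θ : ℂ) (hθ : θ = Real.pi ∨ θ = Real.exp 1) : Pool.Agent.TH456.TM.MeasT θ := by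
  rcases hθ with rfl | rfl
  · exact Pool.Agent.TH456.TM.measT_pi
  · exact Pool.Agent.TH456.TM.measT_e

/-- `Box D H F`: the polynomial `F(X, Y)` has degree at most `D` in each variable and integer
coefficients of absolute value at most `H`; `aevalAeval θ t F` is `F(θ, t)`.
(1) near relations on an interval of scales `[Y, Z]` (for instance `Y = Z`);
(2) near relations at all large scales; (3), (4) relations linear in `t_1, …, t_r`. -/
theorem result :
    (∀ θ : ℂ, θ = Real.pi ∨ θ = Real.exp 1 → ∀ D : ℕ, 1 ≤ D →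
      ∃ κ : ℝ, 0 < κ ∧ ∀ w : ℝ, κ ≤ w → ∀ T : ℝ, ∃ c K : ℝ, 0 < c ∧ 0 < K ∧
        ∀ t : ℂ, ‖t‖ ≤ T → ∀ Y Z : ℝ, 1 ≤ Y → Y ≤ Z →
          (∀ H : ℝ, Y ≤ H → H ≤ Z →
            ∃ F : ℤ[X][X], F ≠ 0 ∧ Box D H F ∧ ‖aevalAeval θ t F‖ < c * H ^ (-(2 * D * w))) →
          ∃ P : ℤ[X][X], Irreducible P ∧ Box D (K * Y) P ∧ ‖aevalAeval θ t P‖ < Z ^ (-w) ∧
            ∀ H : ℝ, Y ≤ H → H ≤ Z → ∀ F : ℤ[X][X], F ≠ 0 → Box D H F →
              ‖aevalAeval θ t F‖ < c * H ^ (-(2 * D * w)) → P ∣ F) ∧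
    (∀ θ : ℂ, θ = Real.pi ∨ θ = Real.exp 1 → ∀ D : ℕ, 1 ≤ D → ∃ κ : ℝ, 0 < κ ∧ ∀ t : ℂ,
      (∃ F : ℤ[X][X], F ≠ 0 ∧ F.natDegree ≤ D ∧ (∀ j, (F.coeff j).natDegree ≤ D) ∧
        aevalAeval θ t F = 0) ↔
      ∃ Y : ℝ, ∀ H : ℝ, Y ≤ H →
        ∃ F : ℤ[X][X], F ≠ 0 ∧ Box D H F ∧ ‖aevalAeval θ t F‖ ≤ H ^ (-κ)) ∧
    (∀ m r : ℕ, ∀ ε : ℝ, 0 < ε → ∃ c : ℝ, 0 < c ∧ ∀ (t : Fin r → ℝ) (H : ℝ), 1 ≤ H →
      ∀ v : Fin (r + 1) → (Fin (m + 1) → ℤ) × (Fin r → ℤ), LinearIndependent ℤ v →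
        (∀ k, ‖v k‖ ≤ H) → ∃ k, c * H ^ (-(((r + 1) * m + r : ℝ) + ε)) ≤
          |∑ i, ((v k).1 i : ℝ) * Real.exp 1 ^ (i : ℕ) + ∑ j, ((v k).2 j : ℝ) * t j|) ∧
    (∀ m r : ℕ, ∃ C : ℝ, 0 < C ∧ ∀ N : ℕ, 2 ≤ N → ∃ t : Fin r → ℝ, (∀ j, |t j| ≤ C) ∧
      ∃ v : Fin (r + 1) → (Fin (m + 1) → ℤ) × (Fin r → ℤ), LinearIndependent ℤ v ∧
        (∀ k, ‖v k‖ ≤ (N : ℝ)) ∧ ∀ k,
          |∑ i, ((v k).1 i : ℝ) * Real.exp 1 ^ (i : ℕ) + ∑ j, ((v k).2 j : ℝ) * t j| ≤
            C / (N : ℝ) ^ ((r + 1) * m + r)) := by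
  refine ⟨fun θ hθ D hD => ?_, fun θ hθ D hD => ?_, fun m r ε hε => ?_, sharp⟩
  · simp only [← vl_eq]
    exact one_irreducible θ (measT θ hθ) D hD
  · simp only [← vl_eq]
    exact criterion θ (measT θ hθ) D hD
  · have hr : (0 : ℝ) < r + 1 := by positivity
    obtain ⟨c, hc, h⟩ := Pool.Agent.W472.AC.e_meas m (fun i => ((i : ℕ) : ℤ)) (fun i j hij => by
      apply Fin.ext
      simpa using hij) (by simp) (fun i => by positivity) (ε / (r + 1)) (by positivity)
    have h1 : Pool.Agent.W472.AC.Meas (fun i : Fin (m + 1) => Real.exp 1 ^ (i : ℕ))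
        (m + ε / (r + 1)) c := by
      convert h using 2 with i
      rw [Int.cast_natCast, ← Real.exp_one_pow]
    obtain ⟨c', hc', h'⟩ := Pool.Agent.TH647.NR.rank_bound _ _ c hc h1 r
    refine ⟨c', hc', fun t H hH v hv hvH => ?_⟩
    obtain ⟨k, hk⟩ := h' t H hH v hv hvH
    refine ⟨k, ?_⟩
    have e1 : ((r : ℝ) + (r + 1) * (m + ε / (r + 1))) = ((r + 1) * m + r : ℝ) + ε := by
      field_simp
      ring
    rw [e1] at hk
    exact hk

end Pool.Agent.Results.MP_363d4d_nt.OneRelationAtEachScale
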