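import Mathlib
import Pool.Agent.Z3h92.GenericOr

/-!
# Equidistribution of `p x` (`p` prime) and of polynomials with leading coefficient `x`, with a power
saving and at every scale, for `x = π + e` or `x = π - e`

More generally: at every scale `N` all the numbers `(u t + P(θ)) / v`, `θ = e` or `θ = π`, of bounded
degree and of height up to a power of `N` (for instance `π + r e` with `r` rational), except those of
one class, satisfy Vinogradov's theorem on the multiples `p x` over the primes `p ≤ N` and Weyl's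
theorem on the polynomials with leading coefficient `x`, with error terms `N ^ (1 - δ)`.
-/

set_option autoImplicit false

open Polynomial

namespace Pool.Agent.Results.MP_363d4d_nt.PrimesAllButOneClass

open Pool.Agent.Z3h92

/-- Let `θ` be `e` or `π`, and let `m` and `k` be degrees. There are `δ > 0` and `N₀` such that for
all `N ≥ N₀` and *all* real numbers `t` (for instance `t = π` if `θ = e`): if `x = (u t + P(θ)) / v`
and `x' = (u' t + P'(θ)) / v'`, where the integers `u, v, u', v'` and the coefficients of the integer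
polynomials `P, P'` of degree `≤ m` are at most `N ^ δ` in absolute value and `u' P - u P'` is not
constant, then `x` or `x'` is generic at the scale `N`. (With `t = π`, `θ = e`,
`u = v = u' = v' = 1`, `P = X`, `P' = -X`, the numbers are `π + e` and `π - e`.) -/
theorem result (θ : ℝ) (hθ : θ = Real.exp 1 ∨ θ = Real.pi) (m k : ℕ) :
    ∃ δ : ℝ, 0 < δ ∧ ∃ N₀ : ℕ, ∀ N : ℕ, N₀ ≤ N →
      ∀ (t : ℝ) (u v u' v' : ℤ) (P P' : ℤ[X]), v ≠ 0 → v' ≠ 0 →
        |(u : ℝ)| ≤ (N : ℝ) ^ δ → |(v : ℝ)| ≤ (N : ℝ) ^ δ →
        |(u' : ℝ)| ≤ (N : ℝ) ^ δ → |(v' : ℝ)| ≤ (N : ℝ) ^ δ →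
        P.natDegree ≤ m → P'.natDegree ≤ m →
        (∀ i, |(P.coeff i : ℝ)| ≤ (N : ℝ) ^ δ) → (∀ i, |(P'.coeff i : ℝ)| ≤ (N : ℝ) ^ δ) →
        (C u' * P - C u * P').natDegree ≠ 0 →
        Generic δ k N ((u * t + aeval θ P) / v) ∨ Generic δ k N ((u' * t + aeval θ P') / v') := by
  have hM : Pool.Agent.TH456.TM.MeasT (θ : ℂ) := by
    rcases hθ with rfl | rfl
    · exact Pool.Agent.TH456.TM.measT_e
    · exact Pool.Agent.TH456.TM.measT_pi
  exact generic_or hM m k

end Pool.Agent.Results.MP_363d4d_nt.PrimesAllButOneClass
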