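import Mathlib
import Pool.Agent.Z3h92.Joint

/-!
# Visits of the orbits `p ^ i q ^ j x` for the rational combinations of `t` and `1, θ, θ², …`

At every scale, all the numbers `(u t + P(θ)) / v` of bounded degree and exponentially large height
(for instance `π + r e` with `r` rational), except those of one class, visit every interval often.
-/

set_option autoImplicit false

open Filter Polynomial

namespace Pool.Agent.Results.MP_363d4d_nt.VisitsOfAllButOneClass

open Pool.Agent.Z3h92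

/-- Let `p, q ≥ 2` be multiplicatively independent.  There is `1 < s₀ ≤ 2`, with `s₀ = 2` if `p` and
`q` are products of powers of two coprime numbers (for instance `p, q` coprime, or `p = 10` and
`q = 2`), with the following property.  Let `θ` be `e` or `π`, let `m` be a degree and `s < s₀`.
There is `κ > 0` such that for all intervals `(α, β), (α', β') ⊆ [0, 1]`, for all large `n` and for
*all* real numbers `t` (for instance `t = π` if `θ = e`): if `x = (u t + P(θ)) / v` and
`x' = (u' t + P'(θ)) / v'`, where the integers `u, v, u', v'` and the coefficients of the integer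
polynomials `P, P'` of degree `≤ m` are at most `exp (κ n)` in absolute value and `u' P - u P'` is not
constant, then `p ^ i q ^ j x` lies in `(α, β)` modulo one for at least `n ^ s` pairs `i, j < n`, or
`p ^ i q ^ j x'` lies in `(α', β')` modulo one for at least `n ^ s` pairs `i, j < n`.  (With `t = π`,
`θ = e`, `u = v = u' = v' = 1`, `P = X`, `P' = -X`, the numbers are `π + e` and `π - e`.) -/
theorem result (p q : ℕ) (hp : 2 ≤ p) (hq : 2 ≤ q)
    (hpq : Irrational (Real.log (p : ℝ) / Real.log (q : ℝ))) :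
    ∃ s₀ : ℝ, 1 < s₀ ∧ s₀ ≤ 2 ∧
      ((∃ u v k l c d : ℕ, 2 ≤ u ∧ 2 ≤ v ∧ Nat.Coprime u v ∧ p = u ^ k * v ^ l ∧
        q = u ^ c * v ^ d ∧ k * d ≠ l * c) → s₀ = 2) ∧
      ∀ θ : ℝ, θ = Real.exp 1 ∨ θ = Real.pi → ∀ m : ℕ, ∀ s : ℝ, s < s₀ → ∃ κ : ℝ, 0 < κ ∧
        ∀ α β α' β' : ℝ, 0 ≤ α → α < β → β ≤ 1 → 0 ≤ α' → α' < β' → β' ≤ 1 →
          ∀ᶠ n : ℕ in atTop, ∀ (t : ℝ) (u v u' v' : ℤ) (P P' : ℤ[X]), v ≠ 0 → v' ≠ 0 →
            |(u : ℝ)| ≤ Real.exp (κ * n) → |(v : ℝ)| ≤ Real.exp (κ * n) →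
            |(u' : ℝ)| ≤ Real.exp (κ * n) → |(v' : ℝ)| ≤ Real.exp (κ * n) →
            P.natDegree ≤ m → P'.natDegree ≤ m →
            (∀ i, |(P.coeff i : ℝ)| ≤ Real.exp (κ * n)) →
            (∀ i, |(P'.coeff i : ℝ)| ≤ Real.exp (κ * n)) →
            (C u' * P - C u * P').natDegree ≠ 0 →
            (n : ℝ) ^ s ≤ visits p q n α β ((u * t + aeval θ P) / v) ∨
            (n : ℝ) ^ s ≤ visits p q n α' β' ((u' * t + aeval θ P') / v') := by
  obtain ⟨κ₀, h0, h1, h2, hGr⟩ := Pool.Agent.TH461.FGK.gr2_all hp hq hpq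
  refine ⟨2 - κ₀, by linarith, by linarith, fun h => by rw [h2 h]; norm_num, ?_⟩
  intro θ hθ m s hs
  obtain ⟨s1, e1, e2⟩ := exists_between hs
  have hG : Pool.Agent.H847R3.XpXq.Gr2 p q s1 := by
    have := hGr (2 - s1) (by linarith)
    rwa [sub_sub_cancel] at this
  have hM : Pool.Agent.TH456.TM.MeasT (θ : ℂ) := by
    rcases hθ with rfl | rfl
    · exact Pool.Agent.TH456.TM.measT_e
    · exact Pool.Agent.TH456.TM.measT_pi
  exact joint hp hq hpq e1 hG hM m

end Pool.Agent.Results.MP_363d4d_nt.VisitsOfAllButOneClass
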